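import Mathlib

/-!
# MP_74a3a5_co : representation number of toroidal grid graphs

Q1 asks whether no toroidal grid graph `C_m □ C_n` with `m, n ≥ 3` and `m + n ≥ 8` is
`k`-word-representable for some `k ≤ 3`.  We give an explicit word of length `45` which
3-represents `C_3 □ C_5`, so the answer is negative.
-/

set_option autoImplicit false
set_option maxRecDepth 100000

namespace Pool.Agent.Results.MP_74a3a5_co.ThreeByFive

/-- Adjacency of the toroidal grid graph `C_m □ C_n` on the vertex set `ZMod m × ZMod n`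
(used for `m, n ≥ 3`): equal second coordinates and first coordinates differing by `±1`, or
equal first coordinates and second coordinates differing by `±1`. -/
def TorusAdj (m n : ℕ) (a b : ZMod m × ZMod n) : Prop :=
  (a.2 = b.2 ∧ (b.1 - a.1 = 1 ∨ b.1 - a.1 = -1)) ∨
    (a.1 = b.1 ∧ (b.2 - a.2 = 1 ∨ b.2 - a.2 = -1))

/-- Two letters `x ≠ y` alternate in the word `w`: after deleting all other letters, no letter
is followed by itself, i.e. what remains is `x y x y ...` or `y x y x ...`. -/
def Alternate {V : Type} [DecidableEq V] (w : List V) (x y : V) : Prop :=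
  (w.filter fun c => decide (c = x ∨ c = y)).IsChain (· ≠ ·)

/-- `C_m □ C_n` is `k`-word-representable. -/
def KRepresentable (m n k : ℕ) : Prop :=
  ∃ w : List (ZMod m × ZMod n), (∀ x, w.count x = k) ∧
    ∀ x y, x ≠ y → (Alternate w x y ↔ TorusAdj m n x y)

instance (m n : ℕ) (a b : ZMod m × ZMod n) : Decidable (TorusAdj m n a b) := by
  unfold TorusAdj; infer_instance

instance {V : Type} [DecidableEq V] (w : List V) (x y : V) : Decidable (Alternate w x y) := by
  unfold Alternate; infer_instance

/-- The 3-representing word of `C_3 □ C_5`. -/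
def word : List (ZMod 3 × ZMod 5) :=
    [(0, 0), (0, 1), (2, 0), (1, 0), (0, 4), (0, 0), (0, 2), (2, 4), (1, 4), (0, 3), (0, 4),
    (2, 1), (2, 0), (2, 2), (2, 3), (2, 4), (1, 1), (1, 0), (0, 1), (0, 0), (2, 1), (1, 2),
    (1, 1), (1, 3), (2, 0), (0, 2), (0, 1), (2, 2), (1, 2), (0, 3), (0, 2), (1, 4), (0, 4),
    (2, 1), (2, 3), (2, 2), (1, 3), (0, 3), (2, 4), (2, 3), (1, 0), (1, 4), (1, 1), (1, 2),
    (1, 3)]

theorem word_count : ∀ x : ZMod 3 × ZMod 5, word.count x = 3 := by decide +kernel

theorem word_alt : ∀ x y : ZMod 3 × ZMod 5, x ≠ y →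
    (Alternate word x y ↔ TorusAdj 3 5 x y) := by decide +kernel

theorem three_five : KRepresentable 3 5 3 := ⟨word, word_count, word_alt⟩

/-- **Negative answer to Q1.**  It is not true that for all `m, n ≥ 3` with `m + n ≥ 8` the
toroidal grid graph `C_m □ C_n` is not `k`-word-representable for every `1 ≤ k ≤ 3`; indeed
`C_3 □ C_5` is 3-word-representable. -/
theorem result : (¬ ∀ m n : ℕ, 3 ≤ m → 3 ≤ n → 8 ≤ m + n → ∀ k : ℕ, 1 ≤ k → k ≤ 3 →
    ¬ KRepresentable m n k) ∧ KRepresentable 3 5 3 := by
  refine ⟨fun h => ?_, three_five⟩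
  exact h 3 5 (by norm_num) (by norm_num) (by norm_num) 3 (by norm_num) le_rfl three_five

end Pool.Agent.Results.MP_74a3a5_co.ThreeByFive
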